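import Pool.Agent.H367.OS.OOri
import Mathlib

/-!
# Abelian varieties of Hilbert newforms and single pieces of one sequence of cubics

A relation `r` of size `m` is one of the equations `x_i x_j = x_l`, `x_i + x_j = x_l`, `x_i = 1` with
`i, j, l < m`; the relations are numbered, the number of `r` is `ν(r)` (`relNum`). Let `G_m` be the
following polynomial with integral coefficients (`univG ℤ m`). There are variables `x_i` and `z_ij` for
`i, j < m`, a variable `c_r` for every relation `r`, and variables `y_{r,l}` for all relations `r` and
`l < (m + 1) 2 ^ ν(r)`. The equations (`eqnG`) are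

  `z_ij - x_i x_j`,  `c_r ^ 2 - c_r`,  `c_r ρ_r`,  `(1 - c_r) y_{r,l}`,

where `ρ_r` is the linear polynomial `z_ij - x_l`, `x_i + x_j - x_l` or `x_i - 1` of the relation.
`G_m` is the sum of the equations multiplied by further variables `t_e`, one for each equation. It has
degree three. Let `C_m` be the affine cubic hypersurface `G_m = 1` (`cubG R m` over the ring `R`); it is
smooth over the integers.

Let `F` be a totally real number field. Let `M` be the category of motives over `F` (motivated
cycles), a semisimple abelian category with Tate twists `N ↦ N(a)`. For a separated scheme `X` of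
finite type over `ℚ` let `D.G w j X = Gr^W_w H^j_c(X_F)` be the part of weight `w` of the cohomology
with compact supports, a motive over `F`; for smooth projective `Y` it is `h^j(Y_F)` if `j = w`, and
zero otherwise. For an abelian variety `B : Ab` over `F` let `h1 B` be the motive `h^1(B)`. Every
abelian variety `B` over `F` is a union of connected components of `Y_F`, where `Y` is `B` as a smooth
projective scheme over `ℚ`; and for every smooth projective scheme `Y` over `ℚ` the direct factors of
`h^1(Y_F)` are the motives `h^1(B)` of abelian varieties `B` over `F` (the quotients of the Albanese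
variety of `Y_F`); see `AbelianVarieties`.

`V.simple B` says that `B` is simple, and `V.L B` is its Hasse-Weil `L`-function. Let `W.Form` be the
Hilbert newforms over `F` of parallel weight two with trivial central character (with a level `N` such
that `v(N)` is even for all `v`, in question Q1), `W.field f` the field `M_f`, and `W.L f σ` the
`L`-function of `f^σ`. `Attached V W f B` says that `B` is simple and `L(B, s) = Λ_f(s)`, the product
of the functions `L(f^τ, s)`; so question Q1 for `f` is `∃ B, Attached V W f B`.

**Theorem.** Let `E_m` be the number of the equations, and for `N ∈ ℕ` let `e = (m + 1) N + E_m - 1`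
(`esh m N`).

(1) For all `m ≥ 1` and `N` the motive `Gr^W_{2e+1} H^{2e+2}_c((C_m)_F)(e)` is `h^1(B)` for an abelian
variety `B = B_{m,N}` over `F`, and for every abelian variety `B` over `F` and all large `m` there is
an `N` such that `h^1(B)` is a direct factor of `h^1(B_{m,N})`: `B` is a factor of `B_{m,N}` up to
isogeny.

(2) For every newform `f` question Q1 has a positive answer (there is a simple abelian variety `A_f`
with `L(A_f, s) = Λ_f(s)`) if and only if for all large `m` there is such an `A_f` which is, for some
`N`, a factor of `B_{m,N}` up to isogeny: `h^1(A_f)` is a direct factor of the single motive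
`Gr^W_{2e+1} H^{2e+2}_c((C_m)_F)(e)`.

(3) Question Q1 has a positive answer for all `f` in a set of newforms if and only if for every `f` in
the set and infinitely many `m` there are an `N` and an `A_f` as in (2). (So one infinite part of the
sequence is sufficient.)

(4) `G_m` has integral coefficients and degree at most three, and `C_m` is smooth over all rings.

The hypotheses on the motives are standard (`IsMot`): exact sequences, affine bundles, disjoint unions,
the cohomology of affine spaces, the weights of `H^j_c(X)` are between `0` and `2 dim X`, monomorphisms
split, `Gr^W_w H^j_c(X)` is a direct factor of `h^w(Y)` for some smooth projective `Y` (it is a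
subquotient, by the weight spectral sequence), and every smooth projective scheme has an affine bundle
whose total space is affine (Jouanolou).

Idea of the proof. The projection of `C_m` to the affine space with the coordinates `x, z, c, y` is an
affine bundle over the complement of the zero set `W_m` of the equations. The scheme `W_m` is the
disjoint union, over all sets `s` of relations (`c_r = 1` for `r ∈ s` and `c_r = 0` for the others), of
the products `X_s × 𝔸 ^ ((m + 1) N(s))`, where `X_s` is the affine scheme defined by the relations in
`s` and `N(s) = ∑_{r ∈ s} 2 ^ ν(r)`. The numbers `N(s)` are different, and the weights of the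
cohomology of `X_s` are between `0` and `2 m`. So the part of weight `w + 2 (m + 1) N(s)`,
`0 ≤ w ≤ 2 m + 1`, of the cohomology of `W_m` is the twist of the part of weight `w` of the cohomology of
`X_s`, and it is different from the weight of the cohomology of the affine space. Every affine scheme of
finite type over a prime field is an `X_s`, for all large `m`. The pieces of the cohomology of an
arbitrary scheme are direct factors of those of a disjoint union of affine schemes.

The universal system of relations is the one of helper854 (`Pool.Agent.H854.SQ`).
-/

set_option autoImplicit false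

open CategoryTheory CategoryTheory.Limits AlgebraicGeometry Pool.Agent.Y116.UV Pool.Agent.Z125.UN
  Pool.Agent.Q193.LT Pool.Agent.H854.SQ Pool.Agent.H367.OS

universe w v u



namespace Pool.Agent.Results.MP_6cbef8_nt.PiecesOfOneSequence

/-- The simple abelian varieties over `F`, and the `L`-functions. -/
structure Varieties (Ab : Type w) where
  /-- the abelian variety is simple -/
  simple : Ab → Prop
  /-- the Hasse-Weil `L`-function -/
  L : Ab → ℂ → ℂ

/-- Newforms `f` with their coefficient fields, and the `L`-functions of the conjugate newforms
`f^σ`. -/
structure Newforms where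
  /-- the newforms -/
  Form : Type
  /-- the coefficient field -/
  field : Form → Type
  /-- it is a field -/
  isField : ∀ f, Field (field f)
  /-- it is a number field -/
  isNumberField : ∀ f, NumberField (field f)
  /-- the `L`-function of the conjugate `f^σ` -/
  L : ∀ f, (field f →+* ℂ) → ℂ → ℂ

attribute [instance] Newforms.isField Newforms.isNumberField

/-- The abelian variety `B` is simple and `L(B, s) = Λ_f(s)`. -/
def Attached {Ab : Type w} (V : Varieties Ab) (W : Newforms) (f : W.Form) (B : Ab) : Prop :=
  V.simple B ∧ ∀ s : ℂ, V.L B s = ∏ τ : W.field f →+* ℂ, W.L f τ s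

/-- **Abelian varieties of Hilbert newforms and single pieces of one sequence of cubic hypersurfaces
over the integers.** See the explanations above. -/
theorem result {F : Type} [Field F] [NumberField F] [NumberField.IsTotallyReal F] {M : Type u}
    [Category.{v} M] [Abelian M] {D : Pieces ℚ M} (h : IsMot D) {Ab : Type w} {h1 : Ab → M}
    (ha : AbelianVarieties D h1) (V : Varieties Ab) (W : Newforms) :
    (∀ m, 1 ≤ m → ∀ N : ℕ, ∃ B : Ab, Nonempty (h1 B ≅ (D.tw (esh m N)).obj
      (D.G (1 + 2 * esh m N) (1 + 2 * esh m N + 1) (cubG ℚ m)))) ∧
    (∀ B : Ab, ∀ᶠ m in Filter.atTop, ∃ N : ℕ, Factor (h1 B) ((D.tw (esh m N)).obj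
      (D.G (1 + 2 * esh m N) (1 + 2 * esh m N + 1) (cubG ℚ m)))) ∧
    (∀ f : W.Form, (∃ B : Ab, Attached V W f B) ↔ ∀ᶠ m in Filter.atTop, ∃ (N : ℕ) (B : Ab),
      Factor (h1 B) ((D.tw (esh m N)).obj
        (D.G (1 + 2 * esh m N) (1 + 2 * esh m N + 1) (cubG ℚ m))) ∧ Attached V W f B) ∧
    (∀ S : Set W.Form, (∀ f ∈ S, ∃ B : Ab, Attached V W f B) ↔
      ∀ f ∈ S, ∃ᶠ m in Filter.atTop, ∃ (N : ℕ) (B : Ab), Factor (h1 B) ((D.tw (esh m N)).obj
        (D.G (1 + 2 * esh m N) (1 + 2 * esh m N + 1) (cubG ℚ m))) ∧ Attached V W f B) ∧
    ∀ m : ℕ, (univG ℤ m).totalDegree ≤ 3 ∧
      ∀ (R : Type) [CommRing R], MvPolynomial.map (Int.castRingHom R) (univG ℤ m) = univG R m ∧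
        Smooth (cubG R m).hom := by
  obtain ⟨h2, h3⟩ := abelian_occurs isPrimeField_rat h ha
  have h4 := fun f : W.Form => exists_abelian isPrimeField_rat h ha (Attached V W f)
  refine ⟨h2, h3, h4, fun S => forall₂_congr fun f _ => ?_, cubG_facts⟩
  constructor
  · exact fun g => ((h4 f).mp g).frequently
  · intro g
    obtain ⟨m, N, B, -, hB⟩ := g.exists
    exact ⟨B, hB⟩

end Pool.Agent.Results.MP_6cbef8_nt.PiecesOfOneSequence
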